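import Pool.Agent.H27.Tb2

set_option autoImplicit false

namespace Pool.Agent.Results.MP_abdce6_an.TtoGamma

open Pool.Agent.H27.Tb

/-- Every `T`-basis of a real or complex Banach space, for a consistent matrix `T`, is a
gamma-basis (for a suitable matrix). -/
theorem result (𝕜 : Type) [RCLike 𝕜] (E : Type) [NormedAddCommGroup E] [NormedSpace 𝕜 E]
    [CompleteSpace E] (t : ℕ → ℕ → 𝕜) (ht : Consistent t) (x : ℕ → E) (hx : IsTBasis t x) :
    IsGammaBasis 𝕜 x :=
  main t ht x hx

end Pool.Agent.Results.MP_abdce6_an.TtoGamma
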